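import Mathlib

/-!
# A non-planar `ℓ₃`-isometric copy of an infinite planar set
-/

set_option autoImplicit false

namespace Pool.Agent.Results.MP_04b39a_gt.NonPlanarCopy

/-- The `ℓ_p` norm on `ℝ³`. -/
noncomputable def nrm (p : ℝ) (x : Fin 3 → ℝ) : ℝ := (∑ i, |x i| ^ p) ^ (1 / p)

/-- `φ` maps `M` bijectively onto an `ℓ_p`-isometric copy of `M`. -/
def IsCopy (p : ℝ) (M : Set (Fin 3 → ℝ)) (φ : (Fin 3 → ℝ) → (Fin 3 → ℝ)) : Prop :=
  Set.InjOn φ M ∧ ∀ x ∈ M, ∀ y ∈ M, nrm p (φ x - φ y) = nrm p (x - y)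

/-- `A` is contained in some plane. -/
def InPlane (A : Set (Fin 3 → ℝ)) : Prop :=
  ∃ P : AffineSubspace ℝ (Fin 3 → ℝ), Module.finrank ℝ P.direction = 2 ∧ A ⊆ P

/-- The sum of the cubes of the absolute values. -/
noncomputable def cub (x : Fin 3 → ℝ) : ℝ := |x 0| ^ 3 + |x 1| ^ 3 + |x 2| ^ 3

theorem nrm_eq {x y : Fin 3 → ℝ} (h : cub x = cub y) : nrm 3 x = nrm 3 y := by
  unfold nrm
  congr 1
  rw [Fin.sum_univ_three, Fin.sum_univ_three]
  have e : ∀ a : ℝ, |a| ^ (3 : ℝ) = |a| ^ 3 := fun a => by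
    exact_mod_cast Real.rpow_natCast |a| 3
  simp only [e]
  exact h

theorem cub_zero {x : Fin 3 → ℝ} (h : cub x = 0) : x = 0 := by
  unfold cub at h
  have h0 : 0 ≤ |x 0| ^ 3 := by positivity
  have h1 : 0 ≤ |x 1| ^ 3 := by positivity
  have h2 : 0 ≤ |x 2| ^ 3 := by positivity
  have a0 : |x 0| ^ 3 = 0 := by linarith
  have a1 : |x 1| ^ 3 = 0 := by linarith
  have a2 : |x 2| ^ 3 = 0 := by linarith
  have b0 := abs_eq_zero.1 (pow_eq_zero_iff (by norm_num) |>.1 a0)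
  have b1 := abs_eq_zero.1 (pow_eq_zero_iff (by norm_num) |>.1 a1)
  have b2 := abs_eq_zero.1 (pow_eq_zero_iff (by norm_num) |>.1 a2)
  ext i
  fin_cases i
  · exact b0
  · exact b1
  · exact b2

/-- The map. -/
noncomputable def ph (α s δ : ℝ) (x : Fin 3 → ℝ) : Fin 3 → ℝ :=
  if x 0 = x 1 then ![α * x 0, α * x 0, α * x 0]
  else if 0 < x 0 then ![s, -s, 0] else ![-(δ * s), 0, δ * s]

/-- The planar set. -/
def MM (δ : ℝ) : Set (Fin 3 → ℝ) :=
  {x | ∃ t : ℝ, 2 ≤ t ∧ x = ![t, t, 0]} ∪ {![1, -1, 0], ![-δ, δ, 0]}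

theorem main {α s δ : ℝ} (hα : 0 < α) (hα3 : α ^ 3 = 2 / 3) (hs : 0 < s) (hs2 : s ^ 2 * α = 1)
    (hδ : 0 < δ) (hδ1 : δ < 1)
    (hd : s ^ 3 * ((1 + δ) ^ 3 + 1 + δ ^ 3) = 2 * (1 + δ) ^ 3) :
    ∀ x ∈ MM δ, ∀ y ∈ MM δ, cub (ph α s δ x - ph α s δ y) = cub (x - y) := by
  have hq1 : ph α s δ ![1, -1, 0] = ![s, -s, 0] := by
    unfold ph
    rw [if_neg (by simp; norm_num), if_pos (by simp)]
  have hq2 : ph α s δ ![-δ, δ, 0] = ![-(δ * s), 0, δ * s] := by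
    unfold ph
    rw [if_neg (by simp; linarith), if_neg (by simp; linarith)]
  have hL : ∀ t, ph α s δ ![t, t, 0] = ![α * t, α * t, α * t] := by
    intro t
    unfold ph
    rw [if_pos (by simp)]
    simp
  have hcs : ∀ x y : Fin 3 → ℝ, cub (x - y) = cub (y - x) := by
    intro x y
    unfold cub
    simp only [Pi.sub_apply]
    rw [abs_sub_comm (x 0), abs_sub_comm (x 1), abs_sub_comm (x 2)]
  have hts : ∀ t : ℝ, 2 ≤ t → s ≤ α * t := by
    intro t ht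
    have h1 : s ^ 2 ≤ (α * t) ^ 2 := by
      have h2 : s ^ 2 * α ≤ (α * t) ^ 2 * α := by
        rw [hs2]
        have : (α * t) ^ 2 * α = α ^ 3 * t ^ 2 := by ring
        rw [this, hα3]
        nlinarith
      exact le_of_mul_le_mul_right h2 hα
    exact le_of_sq_le_sq h1 (by positivity)
  have c1 : ∀ t : ℝ, 2 ≤ t → cub (ph α s δ ![t, t, 0] - ph α s δ ![1, -1, 0]) =
      cub (![t, t, 0] - ![1, -1, 0]) := by
    intro t ht
    have h1 := hts t ht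
    rw [hL, hq1]
    unfold cub
    simp only [Pi.sub_apply, Matrix.cons_val_zero, Matrix.cons_val_one, Matrix.cons_val]
    rw [abs_of_nonneg (by linarith : (0 : ℝ) ≤ α * t - s),
      abs_of_nonneg (by nlinarith : (0 : ℝ) ≤ α * t - -s),
      abs_of_nonneg (by nlinarith : (0 : ℝ) ≤ α * t - 0),
      abs_of_nonneg (by linarith : (0 : ℝ) ≤ t - 1),
      abs_of_nonneg (by linarith : (0 : ℝ) ≤ t - -1)]
    simp only [sub_zero, abs_zero]
    have e : (α * t - s) ^ 3 + (α * t - -s) ^ 3 + (α * t) ^ 3 =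
        3 * α ^ 3 * t ^ 3 + 6 * (s ^ 2 * α) * t := by ring
    rw [e, hα3, hs2]
    ring
  have c2 : ∀ t : ℝ, 2 ≤ t → cub (ph α s δ ![t, t, 0] - ph α s δ ![-δ, δ, 0]) =
      cub (![t, t, 0] - ![-δ, δ, 0]) := by
    intro t ht
    have h1 := hts t ht
    have h2 : δ * s ≤ s := by nlinarith
    have h3 : 0 < δ * s := mul_pos hδ hs
    rw [hL, hq2]
    unfold cub
    simp only [Pi.sub_apply, Matrix.cons_val_zero, Matrix.cons_val_one, Matrix.cons_val]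
    rw [abs_of_nonneg (by linarith : (0 : ℝ) ≤ α * t - -(δ * s)),
      abs_of_nonneg (by linarith : (0 : ℝ) ≤ α * t - 0),
      abs_of_nonneg (by linarith : (0 : ℝ) ≤ α * t - δ * s),
      abs_of_nonneg (by linarith : (0 : ℝ) ≤ t - -δ),
      abs_of_nonneg (by linarith : (0 : ℝ) ≤ t - δ)]
    simp only [sub_zero, abs_zero]
    have e : (α * t - -(δ * s)) ^ 3 + (α * t) ^ 3 + (α * t - δ * s) ^ 3 =
        3 * α ^ 3 * t ^ 3 + 6 * (s ^ 2 * α) * δ ^ 2 * t := by ring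
    rw [e, hα3, hs2]
    ring
  have c3 : cub (ph α s δ ![1, -1, 0] - ph α s δ ![-δ, δ, 0]) =
      cub (![1, -1, 0] - ![-δ, δ, 0]) := by
    rw [hq1, hq2]
    unfold cub
    simp only [Pi.sub_apply, Matrix.cons_val_zero, Matrix.cons_val_one, Matrix.cons_val]
    have h3 : 0 < δ * s := mul_pos hδ hs
    rw [abs_of_nonneg (by linarith : (0 : ℝ) ≤ s - -(δ * s)),
      abs_of_nonpos (by linarith : -s - 0 ≤ (0 : ℝ)),
      abs_of_nonpos (by linarith : 0 - δ * s ≤ (0 : ℝ)),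
      abs_of_nonneg (by linarith : (0 : ℝ) ≤ 1 - -δ),
      abs_of_nonpos (by linarith : -1 - δ ≤ (0 : ℝ)), sub_zero, sub_zero, abs_zero]
    linear_combination hd
  have c4 : ∀ t t' : ℝ, cub (ph α s δ ![t, t, 0] - ph α s δ ![t', t', 0]) =
      cub (![t, t, 0] - ![t', t', 0]) := by
    intro t t'
    rw [hL, hL]
    unfold cub
    simp only [Pi.sub_apply, Matrix.cons_val_zero, Matrix.cons_val_one, Matrix.cons_val]
    rw [← mul_sub, abs_mul, abs_of_pos hα, sub_zero, abs_zero, mul_pow, hα3]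
    ring
  have c0 : ∀ x : Fin 3 → ℝ, cub (ph α s δ x - ph α s δ x) = cub (x - x) := by
    intro x
    rw [sub_self, sub_self]
  rintro x (⟨t, ht, rfl⟩ | rfl | hx) y (⟨t', ht', rfl⟩ | rfl | hy)
  · exact c4 t t'
  · exact c1 t ht
  · rw [Set.mem_singleton_iff.1 hy]; exact c2 t ht
  · rw [hcs, c1 t' ht', hcs]
  · exact c0 _
  · rw [Set.mem_singleton_iff.1 hy]; exact c3
  · rw [Set.mem_singleton_iff.1 hx, hcs, c2 t' ht', hcs]
  · rw [Set.mem_singleton_iff.1 hx, hcs, c3, hcs]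
  · rw [Set.mem_singleton_iff.1 hx, Set.mem_singleton_iff.1 hy]; exact c0 _

theorem not_plane {α s δ : ℝ} (hα : 0 < α) (hs : 0 < s) (hδ : 0 < δ) :
    ¬ InPlane (ph α s δ '' MM δ) := by
  rintro ⟨P, hP, hsub⟩
  have m1 : (![α * 2, α * 2, α * 2] : Fin 3 → ℝ) ∈ P := by
    apply hsub
    refine ⟨![2, 2, 0], Or.inl ⟨2, le_rfl, rfl⟩, ?_⟩
    unfold ph
    rw [if_pos (by simp)]
    simp
  have m2 : (![α * 3, α * 3, α * 3] : Fin 3 → ℝ) ∈ P := by
    apply hsub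
    refine ⟨![3, 3, 0], Or.inl ⟨3, by norm_num, rfl⟩, ?_⟩
    unfold ph
    rw [if_pos (by simp)]
    simp
  have m3 : (![s, -s, 0] : Fin 3 → ℝ) ∈ P := by
    apply hsub
    refine ⟨![1, -1, 0], Or.inr (Or.inl rfl), ?_⟩
    unfold ph
    rw [if_neg (by simp; norm_num), if_pos (by simp)]
  have m4 : (![-(δ * s), 0, δ * s] : Fin 3 → ℝ) ∈ P := by
    apply hsub
    refine ⟨![-δ, δ, 0], Or.inr (Or.inr rfl), ?_⟩
    unfold ph
    rw [if_neg (by simp; linarith), if_neg (by simp; linarith)]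
  have d1 := AffineSubspace.vsub_mem_direction m2 m1
  have d2 := AffineSubspace.vsub_mem_direction m3 m1
  have d3 := AffineSubspace.vsub_mem_direction m4 m1
  have u1 : (![1, 1, 1] : Fin 3 → ℝ) ∈ P.direction := by
    have := P.direction.smul_mem α⁻¹ d1
    convert this using 1
    ext i
    fin_cases i <;> simp <;> field_simp <;> ring
  have u2 : (![1, -1, 0] : Fin 3 → ℝ) ∈ P.direction := by
    have := P.direction.smul_mem s⁻¹ (P.direction.add_mem d2 (P.direction.smul_mem (α * 2) u1))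
    convert this using 1
    ext i
    fin_cases i <;> simp <;> field_simp
  have u3 : (![-1, 0, 1] : Fin 3 → ℝ) ∈ P.direction := by
    have := P.direction.smul_mem (δ * s)⁻¹
      (P.direction.add_mem d3 (P.direction.smul_mem (α * 2) u1))
    convert this using 1
    ext i
    fin_cases i <;> simp <;> field_simp
  have htop : P.direction = ⊤ := by
    rw [eq_top_iff]
    intro x _
    have hx : x = ((x 0 + x 1 + x 2) / 3) • (![1, 1, 1] : Fin 3 → ℝ) +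
        ((x 0 + x 2 - 2 * x 1) / 3) • (![1, -1, 0] : Fin 3 → ℝ) +
        ((2 * x 2 - x 0 - x 1) / 3) • (![-1, 0, 1] : Fin 3 → ℝ) := by
      ext i
      fin_cases i <;> simp <;> ring
    rw [hx]
    exact P.direction.add_mem (P.direction.add_mem (P.direction.smul_mem _ u1)
      (P.direction.smul_mem _ u2)) (P.direction.smul_mem _ u3)
  rw [htop, finrank_top] at hP
  simp at hP

theorem exists_params : ∃ α s δ : ℝ, 0 < α ∧ α ^ 3 = 2 / 3 ∧ 0 < s ∧ s ^ 2 * α = 1 ∧ 0 < δ ∧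
    δ < 1 ∧ s ^ 3 * ((1 + δ) ^ 3 + 1 + δ ^ 3) = 2 * (1 + δ) ^ 3 := by
  obtain ⟨α, hα, hα3⟩ : ∃ α : ℝ, 0 < α ∧ α ^ 3 = 2 / 3 := by
    refine ⟨(2 / 3 : ℝ) ^ ((1 : ℝ) / 3), by positivity, ?_⟩
    rw [← Real.rpow_natCast, ← Real.rpow_mul (by norm_num)]
    norm_num
  obtain ⟨s, hs, hs2⟩ : ∃ s : ℝ, 0 < s ∧ s ^ 2 * α = 1 := by
    refine ⟨Real.sqrt α⁻¹, Real.sqrt_pos.2 (by positivity), ?_⟩
    rw [Real.sq_sqrt (by positivity)]
    field_simp
  have hs6 : (s ^ 3) ^ 2 = 3 / 2 := by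
    have : (s ^ 2 * α) ^ 3 = 1 := by rw [hs2]; norm_num
    have h2 : (s ^ 2 * α) ^ 3 = (s ^ 3) ^ 2 * α ^ 3 := by ring
    rw [h2, hα3] at this
    linarith
  have hs3 : 0 < s ^ 3 := by positivity
  have hlo : 1 < s ^ 3 := by nlinarith
  have hhi : s ^ 3 < 8 / 5 := by nlinarith
  let F : ℝ → ℝ := fun δ => 2 * (1 + δ) ^ 3 - s ^ 3 * ((1 + δ) ^ 3 + 1 + δ ^ 3)
  have hF : ContinuousOn F (Set.Icc 0 1) := by fun_prop
  have h0 : F 0 < 0 := by simp only [F]; linarith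
  have h1 : 0 < F 1 := by simp only [F]; linarith
  obtain ⟨δ, hδ, hFδ⟩ := intermediate_value_Ioo (by norm_num : (0 : ℝ) ≤ 1) hF ⟨h0, h1⟩
  refine ⟨α, s, δ, hα, hα3, hs, hs2, hδ.1, hδ.2, ?_⟩
  have : 2 * (1 + δ) ^ 3 - s ^ 3 * ((1 + δ) ^ 3 + 1 + δ ^ 3) = 0 := hFδ
  linarith

/-- **A non-planar isometric copy.** For `p = 3` there is an infinite set in a horizontal plane of
`ℝ³` with an `ℓ_p`-isometric copy which is not contained in any plane. -/
theorem result : ∃ (p : ℝ) (M : Set (Fin 3 → ℝ)) (φ : (Fin 3 → ℝ) → (Fin 3 → ℝ)), 1 < p ∧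
    M.Infinite ∧ (∃ c : ℝ, ∀ x ∈ M, x 2 = c) ∧ IsCopy p M φ ∧ ¬ InPlane (φ '' M) := by
  obtain ⟨α, s, δ, hα, hα3, hs, hs2, hδ, hδ1, hd⟩ := exists_params
  have hmain := main hα hα3 hs hs2 hδ hδ1 hd
  refine ⟨3, MM δ, ph α s δ, by norm_num, ?_, ⟨0, ?_⟩, ⟨?_, ?_⟩, not_plane hα hs hδ⟩
  · refine Set.Infinite.mono (Set.subset_union_left) ?_
    refine Set.infinite_of_injective_forall_mem (f := fun k : ℕ => (![(k : ℝ) + 2, (k : ℝ) + 2, 0] :
      Fin 3 → ℝ)) ?_ ?_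
    · intro k k' h
      have := congrFun h 0
      simpa using this
    · intro k
      exact ⟨(k : ℝ) + 2, by linarith [Nat.cast_nonneg (α := ℝ) k], rfl⟩
  · rintro x (⟨t, ht, rfl⟩ | rfl | hx)
    · rfl
    · rfl
    · rw [Set.mem_singleton_iff.1 hx]; rfl
  · intro x hx y hy hxy
    have h := hmain x hx y hy
    rw [hxy, sub_self] at h
    have h0 : cub (0 : Fin 3 → ℝ) = 0 := by simp [cub]
    rw [h0] at h
    exact sub_eq_zero.1 (cub_zero h.symm)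
  · intro x hx y hy
    exact nrm_eq (hmain x hx y hy)

end Pool.Agent.Results.MP_04b39a_gt.NonPlanarCopy
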